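import Pool.Agent.W86.Stairs4

set_option autoImplicit false
open Filter Topology MeasureTheory
open Pool.Agent.W86.Stairs

namespace Pool.Agent.Results.MP_1da119_pr.StairsToInfinity

/-- **The random walk on stairs can tend to infinity almost surely.**

(1) There is a nondecreasing sequence `b t ≥ 9`, `b t → ∞`, such that for EVERY sequence `a` with
`8 ≤ a t ≤ b t` (for example `a = b`) the walk which at step `t` proposes the forward neighbour
with probability `1/2 + 4 / a t` (from every state) tends to infinity almost surely.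

(2) Such walks exist (for any forward-proposal probabilities in `[0, 1]`), so (1) is not vacuous.

(3) With the proposal probabilities read literally as printed in the problem file (forward with
probability `1/2 + 4 / a t` from `(j, j)`, but `1/2 - 4 / a t` from `(j + 1, j)`), for every sequence
`a t ≥ 8` the walk almost surely does not tend to infinity. -/
theorem result :
    (∃ b : ℕ → ℝ, Monotone b ∧ (∀ t, 9 ≤ b t) ∧ Tendsto b atTop atTop ∧
      ∀ a : ℕ → ℝ, (∀ t, 8 ≤ a t ∧ a t ≤ b t) →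
        ∀ (Ω : Type) [MeasurableSpace Ω] (μ : Measure Ω) [IsProbabilityMeasure μ]
          (X : ℕ → Ω → ℕ × ℕ), IsWalk μ X (fun t _ => 1 / 2 + 4 / a t) →
          ∀ᵐ ω ∂μ, Tendsto (fun t => (X t ω).2) atTop atTop) ∧
    (∀ u : ℕ → ℕ × ℕ → ℝ, (∀ t x, 0 ≤ u t x ∧ u t x ≤ 1) →
      ∃ μ : Measure (ℕ → ℕ × ℕ), IsProbabilityMeasure μ ∧ IsWalk μ (fun t ω => ω t) u) ∧
    (∀ a : ℕ → ℝ, (∀ t, 8 ≤ a t) →
      ∀ (Ω : Type) [MeasurableSpace Ω] (μ : Measure Ω) [IsProbabilityMeasure μ]
        (X : ℕ → Ω → ℕ × ℕ),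
        IsWalk μ X (fun t x => if x.1 = x.2 then 1 / 2 + 4 / a t else 1 / 2 - 4 / a t) →
        ∀ᵐ ω ∂μ, ¬ Tendsto (fun t => (X t ω).2) atTop atTop) := by
  refine ⟨⟨bd, bd_mono, bd_ge, bd_tendsto, ?_⟩, exists_walk, ?_⟩
  · intro a ha Ω _ μ _ X h
    exact escape ha h
  · intro a ha Ω _ μ _ X h
    exact noEscape ha h

end Pool.Agent.Results.MP_1da119_pr.StairsToInfinity
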